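import Pool.Agent.Lib_helper49.Mix.Norm

/-!
# Composition

`q` a function on `{-1,1}^W`, `r_w` functions of disjoint sets of variables, of mean zero and with
values in `[-1,1]`; `h(x) = q(r_w(x))`, where `q` is extended as a multi-affine function.
-/

set_option autoImplicit false
set_option linter.unusedSectionVars false

namespace Pool.Agent.Lib_helper49.Mix

open Finset Pool.Agent.Lib_helper30.AA
open Pool.Agent.Lib_helper23.GP (inf inf_nonneg ex_mix mix_eq_left mix_eq_right)

variable {V W : Type} [Fintype V] [DecidableEq V] [Fintype W] [DecidableEq W]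

/-- the kernel -/
noncomputable def ker (r : W → (V → Bool) → ℝ) (A : Finset W) (z : W → Bool) (x : V → Bool) : ℝ :=
  ∏ w ∈ A, (1 + (-1 : ℝ) ^ (z w).toNat * r w x)

lemma ex_sign_mul {w : W} {g : (W → Bool) → ℝ} (hg : ∀ z, g (flip w z) = g z) :
    ex (fun z => (-1 : ℝ) ^ (z w).toNat * g z) = 0 := by
  have h := ex_flip (fun z : W → Bool => (-1 : ℝ) ^ (z w).toNat * g z) w
  have h2 : (fun z : W → Bool => (-1 : ℝ) ^ (flip w z w).toNat * g (flip w z)) =
      fun z => -1 * ((-1 : ℝ) ^ (z w).toNat * g z) := by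
    funext z
    rw [hg]
    have hfl : Pool.Agent.Lib_helper30.AA.flip w z w = !z w := by simp [Pool.Agent.Lib_helper30.AA.flip]
    rw [hfl, sign_mul_not]
    ring
  rw [h2, ex_const_mul] at h
  linarith

lemma ker_flip (r : W → (V → Bool) → ℝ) {A : Finset W} {w : W} (hw : w ∉ A) (z : W → Bool)
    (x : V → Bool) : ker r A (flip w z) x = ker r A z x := by
  unfold ker
  refine Finset.prod_congr rfl fun i hi => ?_
  rw [flip_apply_of_ne (by rintro rfl; exact hw hi)]

lemma ker_insert (r : W → (V → Bool) → ℝ) {A : Finset W} {w : W} (hw : w ∉ A) (z : W → Bool)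
    (x : V → Bool) :
    ker r (insert w A) z x = (1 + (-1 : ℝ) ^ (z w).toNat * r w x) * ker r A z x := by
  unfold ker
  rw [Finset.prod_insert hw]

lemma ex_ker_left (r : W → (V → Bool) → ℝ) (A : Finset W) (x : V → Bool) :
    ex (fun z => ker r A z x) = 1 := by
  induction A using Finset.induction_on with
  | empty =>
    have : (fun z : W → Bool => ker r ∅ z x) = fun _ => 1 := by funext z; simp [ker]
    rw [this, ex_const]
  | insert w A hw ih =>
    have : (fun z : W → Bool => ker r (insert w A) z x) = fun z =>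
        ker r A z x + r w x * ((-1 : ℝ) ^ (z w).toNat * ker r A z x) := by
      funext z
      rw [ker_insert r hw]
      ring
    rw [this, ex_add, ex_const_mul, ex_sign_mul (fun z => ker_flip r hw z x), ih]
    ring

lemma ex_mul_indep (T : Finset V) {q r : (V → Bool) → ℝ}
    (hq : ∀ x y : V → Bool, (∀ v, v ∉ T → x v = y v) → q x = q y)
    (hr : ∀ x y : V → Bool, (∀ v ∈ T, x v = y v) → r x = r y) :
    ex (fun x => q x * r x) = ex q * ex r := by
  rw [← ex_mix T (fun x => q x * r x)]
  have h1 : (fun x => ex (fun y => q (mix T x y) * r (mix T x y))) =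
      fun x => ex r * q x := by
    funext x
    have h2 : (fun y => q (mix T x y) * r (mix T x y)) = fun y => q x * r y := by
      funext y
      rw [mix_eq_left hq, mix_eq_right hr]
    rw [h2, ex_const_mul, mul_comm]
  rw [h1, ex_const_mul, mul_comm]

lemma ker_outside {r : W → (V → Bool) → ℝ} {T : W → Finset V}
    (hr : ∀ w, ∀ x y : V → Bool, (∀ v ∈ T w, x v = y v) → r w x = r w y)
    (hT : ∀ w w', w ≠ w' → Disjoint (T w) (T w')) {A : Finset W} {w : W} (hw : w ∉ A)
    (z : W → Bool) (x y : V → Bool) (h : ∀ v, v ∉ T w → x v = y v) :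
    ker r A z x = ker r A z y := by
  unfold ker
  refine Finset.prod_congr rfl fun i hi => ?_
  rw [hr i x y fun v hv => h v fun hv' =>
    (Finset.disjoint_left.mp (hT i w (by rintro rfl; exact hw hi)) hv hv')]

lemma ex_ker_right {r : W → (V → Bool) → ℝ} {T : W → Finset V}
    (hr : ∀ w, ∀ x y : V → Bool, (∀ v ∈ T w, x v = y v) → r w x = r w y)
    (hT : ∀ w w', w ≠ w' → Disjoint (T w) (T w')) (hr0 : ∀ w, ex (r w) = 0) (A : Finset W)
    (z : W → Bool) : ex (fun x => ker r A z x) = 1 := by
  induction A using Finset.induction_on with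
  | empty =>
    have : (fun x : V → Bool => ker r (∅ : Finset W) z x) = fun _ => 1 := by
      funext x; simp [ker]
    rw [this, ex_const]
  | insert w A hw ih =>
    have : (fun x : V → Bool => ker r (insert w A) z x) = fun x =>
        ker r A z x + (-1 : ℝ) ^ (z w).toNat * (ker r A z x * r w x) := by
      funext x
      rw [ker_insert r hw]
      ring
    rw [this, ex_add, ex_const_mul, ex_mul_indep (T w) (ker_outside hr hT hw z) (hr w), hr0, ih]
    ring

lemma ex_comm (A : (V → Bool) → (W → Bool) → ℝ) :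
    ex (fun x => ex (fun z => A x z)) = ex (fun z => ex (fun x => A x z)) := by
  unfold ex
  simp_rw [← Finset.mul_sum]
  rw [Finset.sum_comm]
  ring

lemma jensen {K : (V → Bool) → ℝ} (hK : ∀ x, 0 ≤ K x) (hK1 : ex K = 1) (f : (V → Bool) → ℝ) :
    (ex (fun x => f x * K x)) ^ 2 ≤ ex (fun x => f x ^ 2 * K x) := by
  set m := ex (fun x => f x * K x) with hm
  have h1 : 0 ≤ ex (fun x => (f x - m) ^ 2 * K x) :=
    ex_nonneg' fun x => mul_nonneg (sq_nonneg _) (hK x)
  have h2 : (fun x => (f x - m) ^ 2 * K x) = fun x =>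
      (f x ^ 2 * K x + (-(2 * m)) * (f x * K x)) + m ^ 2 * K x := by
    funext x; ring
  rw [h2, ex_add, ex_add, ex_const_mul, ex_const_mul, ← hm, hK1] at h1
  nlinarith

lemma ker_nonneg {r : W → (V → Bool) → ℝ} (hr1 : ∀ w x, |r w x| ≤ 1) (A : Finset W)
    (z : W → Bool) (x : V → Bool) : 0 ≤ ker r A z x := by
  unfold ker
  refine Finset.prod_nonneg fun w _ => ?_
  have h := abs_le.mp (hr1 w x)
  cases z w <;> simp <;> linarith

/-- **Composition.** -/
lemma Bt.comp {q : (W → Bool) → ℝ} {a b t t' : ℝ} (Hq : Bt q a t) {r : W → (V → Bool) → ℝ}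
    {T : W → Finset V} (hr : ∀ w, ∀ x y : V → Bool, (∀ v ∈ T w, x v = y v) → r w x = r w y)
    (hT : ∀ w w', w ≠ w' → Disjoint (T w) (T w')) (hr0 : ∀ w, ex (r w) = 0)
    (hr1 : ∀ w x, |r w x| ≤ 1) (hb : 0 ≤ b) (ht' : 0 < t') (ht'2 : t' ≤ 1 / 2)
    (Hr : ∀ w, Bt (r w) b t') :
    Bt (fun x => ex (fun z => q z * ker r univ z x)) (a * b ^ (2 * t)) (2 * t * t') := by
  obtain ⟨ha, ht, ht2, Hq'⟩ := Hq
  refine ⟨mul_nonneg ha (Real.rpow_nonneg hb _), by positivity, by nlinarith, ?_⟩
  intro F I hI hI1 hF hF2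
  obtain ⟨G, hG⟩ : ∃ G : (W → Bool) → ℝ, G = fun z => ex (fun x => F x * ker r univ z x) :=
    ⟨_, rfl⟩
  -- the means
  have e1 : ex (fun x => ex (fun z => q z * ker r univ z x)) = ex q := by
    rw [ex_comm]
    congr 1
    funext z
    rw [ex_const_mul, ex_ker_right hr hT hr0, mul_one]
  have e2 : ex (fun x => ex (fun z => q z * ker r univ z x) * F x) = ex (fun z => q z * G z) := by
    have h1 : (fun x => ex (fun z => q z * ker r univ z x) * F x) =
        fun x => ex (fun z => q z * (F x * ker r univ z x)) := by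
      funext x
      rw [mul_comm, ← ex_const_mul]
      congr 1
      funext z
      ring
    rw [h1, ex_comm]
    congr 1
    funext z
    rw [ex_const_mul, hG]
  have e3 : ex G = ex F := by
    rw [hG, ex_comm (fun z x => F x * ker r univ z x)]
    congr 1
    funext x
    rw [ex_const_mul, ex_ker_left, mul_one]
  have hcov : cov (fun x => ex (fun z => q z * ker r univ z x)) F = cov q G := by
    unfold cov
    rw [e1, e2, e3]
  -- the second moment
  have e4 : ex (fun z => G z ^ 2) ≤ ex (fun x => F x ^ 2) := by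
    have h1 : ex (fun z => G z ^ 2) ≤ ex (fun z => ex (fun x => F x ^ 2 * ker r univ z x)) := by
      refine ex_mono fun z => ?_
      rw [hG]
      exact jensen (ker_nonneg hr1 univ z) (ex_ker_right hr hT hr0 univ z) F
    refine h1.trans (le_of_eq ?_)
    rw [ex_comm (fun z x => F x ^ 2 * ker r univ z x)]
    congr 1
    funext x
    rw [ex_const_mul, ex_ker_left, mul_one]
  -- the influences
  have e5 : ∀ w, inf G w ≤ (b * I ^ t') ^ 2 := by
    intro w
    obtain ⟨K, hK⟩ : ∃ K : (W → Bool) → (V → Bool) → ℝ, K = fun z x => ker r (univ.erase w) z x :=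
      ⟨_, rfl⟩
    have hw : w ∉ (univ.erase w : Finset W) := Finset.notMem_erase w univ
    have hKK : ∀ z x, ker r univ z x = (1 + (-1 : ℝ) ^ (z w).toNat * r w x) * K z x := by
      intro z x
      rw [hK]
      show _ = _ * ker r (univ.erase w) z x
      rw [← ker_insert r hw, Finset.insert_erase (mem_univ w)]
    have hKf : ∀ z x, K (flip w z) x = K z x := fun z x => by
      rw [hK]; exact ker_flip r hw z x
    have hK0 : ∀ z x, 0 ≤ K z x := fun z x => by rw [hK]; exact ker_nonneg hr1 _ z x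
    have hKx : ∀ z, ex (fun x => K z x) = 1 := fun z => by
      rw [hK]; exact ex_ker_right hr hT hr0 _ z
    have hKz : ∀ x, ex (fun z => K z x) = 1 := fun x => by
      rw [hK]; exact ex_ker_left r _ x
    have hKo : ∀ z (x y : V → Bool), (∀ v, v ∉ T w → x v = y v) → K z x = K z y :=
      fun z x y h => by rw [hK]; exact ker_outside hr hT hw z x y h
    obtain ⟨ψ, hψ⟩ : ∃ ψ : (W → Bool) → ℝ, ψ = fun z => ex (fun x => F x * (r w x * K z x)) :=
      ⟨_, rfl⟩
    have d1 : ∀ z, (G z - G (flip w z)) / 2 = (-1 : ℝ) ^ (z w).toNat * ψ z := by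
      intro z
      rw [hG, hψ]
      show (ex (fun x => F x * ker r univ z x) - ex (fun x => F x * ker r univ (flip w z) x)) / 2 =
        (-1 : ℝ) ^ (z w).toNat * ex (fun x => F x * (r w x * K z x))
      rw [← ex_sub, div_eq_inv_mul, ← ex_const_mul, ← ex_const_mul]
      congr 1
      funext x
      rw [hKK, hKK, hKf]
      have hfl : Pool.Agent.Lib_helper30.AA.flip w z w = !z w := by simp [Pool.Agent.Lib_helper30.AA.flip]
      rw [hfl, sign_mul_not]
      ring
    have d2 : inf G w = ex (fun z => ψ z ^ 2) := by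
      show ex (fun z => ((G z - G (flip w z)) / 2) ^ 2) = _
      congr 1
      funext z
      rw [d1, mul_pow]
      have : ((-1 : ℝ) ^ (z w).toNat) ^ 2 = 1 := by rw [sq, Pool.Agent.Lib_helper30.AA.sign_mul_self]
      rw [this, one_mul]
    obtain ⟨P, hP⟩ : ∃ P : (V → Bool) → ℝ, P = fun x => ex (fun z => ψ z * K z x) := ⟨_, rfl⟩
    have d3 : ex (fun x => P x ^ 2) ≤ ex (fun z => ψ z ^ 2) := by
      have h1 : ex (fun x => P x ^ 2) ≤ ex (fun x => ex (fun z => ψ z ^ 2 * K z x)) := by
        refine ex_mono fun x => ?_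
        rw [hP]
        exact jensen (fun z => hK0 z x) (hKz x) ψ
      refine h1.trans (le_of_eq ?_)
      rw [ex_comm (fun x z => ψ z ^ 2 * K z x)]
      congr 1
      funext z
      rw [ex_const_mul, hKx, mul_one]
    have hPo : ∀ x y : V → Bool, (∀ v ∈ (T w)ᶜ, x v = y v) → P x = P y := by
      intro x y h
      rw [hP]
      show ex (fun z => ψ z * K z x) = ex (fun z => ψ z * K z y)
      congr 1
      funext z
      rw [hKo z x y fun v hv => h v (Finset.mem_compl.mpr hv)]
    have hro : ∀ x y : V → Bool, (∀ v, v ∉ (T w)ᶜ → x v = y v) → r w x = r w y :=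
      fun x y h => hr w x y fun v hv => h v (by simpa using hv)
    have d4 : ex (fun z => ψ z ^ 2) = cov (fun x => r w x * P x) F := by
      have h1 : ex (fun x => r w x * P x) = 0 := by
        rw [ex_mul_indep (T w)ᶜ hro hPo, hr0, zero_mul]
      have h2 : (fun z => ψ z ^ 2) = fun z => ex (fun x => ψ z * (F x * (r w x * K z x))) := by
        funext z
        rw [ex_const_mul, sq]
        congr 1
        rw [hψ]
      unfold cov
      rw [h1, zero_mul, sub_zero, h2, ex_comm]
      congr 1
      funext x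
      rw [hP]
      show _ = r w x * ex (fun z => ψ z * K z x) * F x
      rw [mul_right_comm, ← ex_const_mul]
      congr 1
      funext z
      ring
    obtain ⟨Q, hQ1, hQ2, hQ3⟩ := prod_step' (T w)ᶜ (r w) P F hro hPo
    rw [hr0, zero_mul, add_zero] at hQ3
    have hR : 0 ≤ ex (fun x => P x ^ 2) := ex_nonneg' fun x => sq_nonneg _
    have d5 := (Hr w).hom (G := Q) (R := ex (fun x => P x ^ 2)) hR hI hI1
      (hQ1.trans (mul_le_of_le_one_right hR hF))
      (fun v => (hQ2 v).trans (mul_le_mul_of_nonneg_left (hF2 v) hR))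
    rw [← hQ3, ← d4] at d5
    have hB : 0 ≤ b * I ^ t' := mul_nonneg hb (Real.rpow_nonneg hI _)
    rw [d2]
    obtain ⟨s, hs⟩ : ∃ s, s = ex (fun z => ψ z ^ 2) := ⟨_, rfl⟩
    have hs0 : 0 ≤ s := by rw [hs]; exact ex_nonneg' fun z => sq_nonneg _
    rw [← hs] at d5 d3 ⊢
    have d6 : s ≤ Real.sqrt s * (b * I ^ t') := by
      refine (le_abs_self s).trans (d5.trans ?_)
      rw [mul_assoc]
      exact mul_le_mul_of_nonneg_right (Real.sqrt_le_sqrt d3) hB
    have hss : Real.sqrt s * Real.sqrt s = s := Real.mul_self_sqrt hs0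
    have d7 : Real.sqrt s ≤ b * I ^ t' := by
      rcases (Real.sqrt_nonneg s).eq_or_lt with h0 | h0
      · rw [← h0]; exact hB
      · refine le_of_mul_le_mul_left ?_ h0
        rw [hss]
        exact d6
    calc s = Real.sqrt s ^ 2 := by rw [sq, hss]
      _ ≤ _ := pow_le_pow_left₀ (Real.sqrt_nonneg s) d7 2
  -- the end
  rw [hcov]
  have hB : 0 ≤ b * I ^ t' := mul_nonneg hb (Real.rpow_nonneg hI _)
  have h1 := Hq' G (min 1 ((b * I ^ t') ^ 2)) (le_min zero_le_one (sq_nonneg _))
    (min_le_left _ _) (e4.trans hF)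
    (fun w => le_min ((inf_le_ex_sq G w).trans (e4.trans hF)) (e5 w))
  refine h1.trans ?_
  rw [mul_assoc]
  refine mul_le_mul_of_nonneg_left ?_ ha
  calc (min 1 ((b * I ^ t') ^ 2)) ^ t ≤ ((b * I ^ t') ^ 2) ^ t :=
        Real.rpow_le_rpow (le_min zero_le_one (sq_nonneg _)) (min_le_right _ _) ht.le
    _ = b ^ (2 * t) * I ^ (2 * t * t') := by
        rw [← Real.rpow_two, ← Real.rpow_mul hB, Real.mul_rpow hb (Real.rpow_nonneg hI _),
          ← Real.rpow_mul hI]
        congr 2
        ring

end Pool.Agent.Lib_helper49.Mix
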