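import Pool.Agent.Lib_helper49.Mix.Rules
import Pool.Agent.Lib_helper84.PLH.Leaf40

/-!
# The leaves, and the end of the proof
-/

set_option autoImplicit false
set_option linter.unusedSectionVars false

namespace Pool.Agent.Lib_helper49.Mix

open Finset Pool.Agent.Lib_helper30.AA
open Pool.Agent.Lib_helper23.GP (inf inf_nonneg inf_inj inf_inj_zero ex_inj cov_inj)

variable {V : Type} [Fintype V] [DecidableEq V]

lemma ex_two_mul {n : ℕ} (F : (Fin n ⊕ Fin n → Bool) → ℝ) :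
    ex F = ((2 : ℝ) ^ (2 * n))⁻¹ * ∑ v, F v := by
  unfold ex
  rw [Fintype.card_sum, Fintype.card_fin, two_mul]

/-- bounded functions which are pluriharmonic in groups of variables -/
lemma Bd.leaf {n m : ℕ} (g : Fin n → Fin m) (k d : ℕ) (s : V → Fin n ⊕ Fin n)
    (hs : Function.Injective s) (c : (Fin m → Bool) → Finset (Fin n) → ℂ)
    (hdeg : ∀ u S, c u S ≠ 0 → S.card ≤ d)
    (hk : ∀ u S, c u S ≠ 0 → (S.image g).card ≤ k + 1) (h : (V → Bool) → ℝ)
    (hh : ∀ y : Fin n ⊕ Fin n → Bool, h (fun v => y (s v)) =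
      (∑ u, ∑ S, c u S * ∏ i ∈ S, ((-1) ^ (y (Sum.inl i)).toNat +
        (-1) ^ (u (g i)).toNat * (-1) ^ (y (Sum.inr i)).toNat * Complex.I)).re)
    (hb : ∀ x, |h x| ≤ 1) : Bd h (3 * 1024 ^ k * d) := by
  refine ⟨mul_nonneg (mul_nonneg (by norm_num) (pow_nonneg (by norm_num) _))
    (Nat.cast_nonneg d), ?_⟩
  intro F I hI hI1 hF hF2
  have h1 := Pool.Agent.PLH.leaf40 n m g k c (fun y => h (fun v => y (s v)))
    (fun y => F (fun v => y (s v))) hh (fun y => hb _) (by
      rw [← ex_two_mul (fun y : Fin n ⊕ Fin n → Bool => F (fun v => y (s v)) ^ 2),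
        ex_inj hs (fun x => F x ^ 2)]
      exact hF) d hdeg hk I hI (by
      intro u
      rw [← ex_two_mul (fun w : Fin n ⊕ Fin n → Bool => ((F (fun v => w (s v)) -
        F (fun v => Function.update w u (!w u) (s v))) / 2) ^ 2)]
      show inf (fun y : Fin n ⊕ Fin n → Bool => F (fun v => y (s v))) u ≤ I
      by_cases hu : ∃ v, s v = u
      · obtain ⟨v, rfl⟩ := hu
        rw [inf_inj hs]
        exact hF2 v
      · push Not at hu
        rw [inf_inj_zero F hu]
        exact hI)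
  have h2 : ((2 : ℝ) ^ (2 * n))⁻¹ * ∑ y : Fin n ⊕ Fin n → Bool,
      h (fun v => y (s v)) * F (fun v => y (s v)) -
      (((2 : ℝ) ^ (2 * n))⁻¹ * ∑ y : Fin n ⊕ Fin n → Bool, h (fun v => y (s v))) *
        (((2 : ℝ) ^ (2 * n))⁻¹ * ∑ y : Fin n ⊕ Fin n → Bool, F (fun v => y (s v))) =
      cov h F := by
    rw [← ex_two_mul (fun y : Fin n ⊕ Fin n → Bool => h (fun v => y (s v)) * F (fun v => y (s v))),
      ← ex_two_mul (fun y : Fin n ⊕ Fin n → Bool => h (fun v => y (s v))),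
      ← ex_two_mul (fun y : Fin n ⊕ Fin n → Bool => F (fun v => y (s v))),
      ex_inj hs (fun x => h x * F x), ex_inj hs h, ex_inj hs F]
    rfl
  rw [h2] at h1
  exact Pool.Agent.Lib_helper80.PLH.leaf_end40 hI h1

lemma inf_le_ex_sq (F : (V → Bool) → ℝ) (v : V) : inf F v ≤ ex (fun x => F x ^ 2) := by
  have h1 : inf F v ≤ ex (fun x => (1/2) * F x ^ 2 + (1/2) * F (flip v x) ^ 2) := by
    refine ex_mono fun x => ?_
    show ((F x - F (flip v x)) / 2) ^ 2 ≤ _
    nlinarith [sq_nonneg (F x + F (flip v x))]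
  refine h1.trans (le_of_eq ?_)
  rw [ex_add, ex_const_mul, ex_const_mul, ex_flip (fun x => F x ^ 2) v]
  ring

/-- the inequality for all functions `F` -/
lemma Bd.all {h : (V → Bool) → ℝ} {c : ℝ} (H : Bd h c) (F : (V → Bool) → ℝ)
    (hF : ex (fun x => F x ^ 2) ≤ 1) : |cov h F| ≤ c * (⨆ v, inf F v) ^ (1 / 40 : ℝ) := by
  refine H.2 F _ (Real.iSup_nonneg fun v => inf_nonneg F v) ?_ hF ?_
  · exact Real.iSup_le (fun v => (inf_le_ex_sq F v).trans hF) zero_le_one
  · exact fun v => le_ciSup (f := fun v => inf F v) (Set.finite_range _).bddAbove v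

/-- the influential variable -/
lemma Bd.top {f : (V → Bool) → ℝ} {c : ℝ} (H : Bd f c) (hf : ex (fun x => f x ^ 2) ≤ 1)
    (hv : 0 < ex (fun x => f x ^ 2) - ex f ^ 2) :
    ∃ v, ((ex (fun x => f x ^ 2) - ex f ^ 2) / c) ^ 40 ≤ inf f v := by
  have h1 := H.all f hf
  have h2 : cov f f = ex (fun x => f x ^ 2) - ex f ^ 2 := by
    unfold cov
    have : (fun x => f x * f x) = fun x => f x ^ 2 := by funext x; ring
    rw [this]
    ring
  rw [h2, abs_of_pos hv] at h1
  have h0 : 0 ≤ ⨆ v, inf f v := Real.iSup_nonneg fun v => inf_nonneg f v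
  have h3 := Pool.Agent.Lib_helper80.PLH.final_end40 hv h0 h1
  rcases isEmpty_or_nonempty V with hV | hV
  · exfalso
    rw [Real.iSup_of_isEmpty, Real.zero_rpow (by norm_num), mul_zero] at h1
    linarith
  · obtain ⟨v, hv'⟩ := exists_eq_ciSup_of_finite (f := fun v => inf f v)
    exact ⟨v, by rw [hv']; exact h3⟩

end Pool.Agent.Lib_helper49.Mix
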