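import Pool.Agent.Lib_helper49.Mix.Final

/-!
# The rules with an exponent

`Bt h c t`: the covariance of `h` with every `F` with `E F^2 <= 1` and all influences at most
`I <= 1` is at most `c I^t`; `0 < t <= 1/2`.
-/

set_option autoImplicit false
set_option linter.unusedSectionVars false

namespace Pool.Agent.Lib_helper49.Mix

open Finset Pool.Agent.Lib_helper30.AA
open Pool.Agent.Lib_helper23.GP (inf inf_nonneg inf_inj inf_inj_zero ex_inj cov_inj ex_mix mix_eq_left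
  mix_eq_right)

variable {V : Type} [Fintype V] [DecidableEq V]

/-- The covariance of `h` with every flat function is at most `c I^t`. -/
def Bt (h : (V → Bool) → ℝ) (c t : ℝ) : Prop :=
  0 ≤ c ∧ 0 < t ∧ t ≤ 1 / 2 ∧ ∀ (F : (V → Bool) → ℝ) (I : ℝ), 0 ≤ I → I ≤ 1 →
    ex (fun x => F x ^ 2) ≤ 1 → (∀ v, inf F v ≤ I) → |cov h F| ≤ c * I ^ t

/-- the homogeneous form -/
lemma Bt.hom {h : (V → Bool) → ℝ} {c t : ℝ} (H : Bt h c t) {G : (V → Bool) → ℝ} {R I : ℝ}
    (hR : 0 ≤ R) (hI : 0 ≤ I) (hI1 : I ≤ 1) (h1 : ex (fun x => G x ^ 2) ≤ R)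
    (h2 : ∀ v, inf G v ≤ R * I) : |cov h G| ≤ Real.sqrt R * c * I ^ t := by
  rcases hR.eq_or_lt with h0 | h0
  · have hz : ∀ x, G x = 0 := by
      have h3 : ex (fun x => G x ^ 2) = 0 := le_antisymm (by rw [← h0] at h1; exact h1)
        (ex_nonneg' fun x => sq_nonneg _)
      unfold ex at h3
      have h4 : ∑ x : V → Bool, G x ^ 2 = 0 := by
        rcases mul_eq_zero.mp h3 with h5 | h5
        · have : (0:ℝ) < ((2 : ℝ) ^ (Fintype.card V))⁻¹ := by positivity
          linarith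
        · exact h5
      rw [Finset.sum_eq_zero_iff_of_nonneg (fun x _ => sq_nonneg _)] at h4
      intro x
      exact pow_eq_zero_iff (two_ne_zero) |>.mp (h4 x (mem_univ x))
    have : G = fun _ => 0 := funext hz
    have h5 : cov h G = 0 := by
      rw [this]
      unfold cov
      simp only [mul_zero]
      rw [ex_const]
      ring
    rw [h5, abs_zero]
    exact mul_nonneg (mul_nonneg (Real.sqrt_nonneg _) H.1) (Real.rpow_nonneg hI _)
  · have hs : 0 < Real.sqrt R := Real.sqrt_pos.mpr h0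
    have hs2 : Real.sqrt R ^ 2 = R := Real.sq_sqrt hR
    have h3 := H.2.2.2 (fun x => (Real.sqrt R)⁻¹ * G x) I hI hI1 (by
      have : (fun x => ((Real.sqrt R)⁻¹ * G x) ^ 2) = fun x => R⁻¹ * G x ^ 2 := by
        funext x
        rw [mul_pow, inv_pow, hs2]
      rw [this, ex_const_mul, inv_mul_le_iff₀ h0, mul_one]
      exact h1) (fun v => by
      rw [inf_smul, inv_pow, hs2, inv_mul_le_iff₀ h0]
      exact h2 v)
    rw [cov_smul, abs_mul, abs_of_pos (inv_pos.mpr hs), inv_mul_le_iff₀ hs] at h3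
    linarith

/-- leaves: the exponent is `1/40` -/
lemma Bd.toBt {h : (V → Bool) → ℝ} {c : ℝ} (H : Bd h c) : Bt h c (1 / 40) :=
  ⟨H.1, by norm_num, by norm_num, H.2⟩

/-- linear combinations -/
lemma Bt.sum {A : Type} [Fintype A] {p : A → ℝ} {h : A → (V → Bool) → ℝ} {c : A → ℝ} {t : ℝ}
    (ht : 0 < t) (ht2 : t ≤ 1 / 2)
    (H : ∀ a, Bt (h a) (c a) t) : Bt (fun x => ∑ a, p a * h a x) (∑ a, |p a| * c a) t := by
  refine ⟨Finset.sum_nonneg fun a _ => mul_nonneg (abs_nonneg _) (H a).1, ht, ht2, ?_⟩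
  intro F I hI hI1 hF hF2
  have h1 := Pool.Agent.Lib_helper23.GP.cov_sum p h F
  have h2 : cov (fun v => ∑ a, p a * h a v) F = ∑ a, p a * cov (h a) F := h1
  rw [h2, Finset.sum_mul]
  refine (Finset.abs_sum_le_sum_abs _ _).trans (Finset.sum_le_sum fun a _ => ?_)
  rw [abs_mul, mul_assoc]
  exact mul_le_mul_of_nonneg_left ((H a).2.2.2 F I hI hI1 hF hF2) (abs_nonneg _)

lemma sqrt_le_rpow {I x t : ℝ} (hI : 0 ≤ I) (hI1 : I ≤ 1) (ht : 0 < t) (ht2 : t ≤ 1 / 2)
    (h : x ≤ I) : Real.sqrt x ≤ I ^ t := by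
  refine (Real.sqrt_le_sqrt h).trans ?_
  rw [Real.sqrt_eq_rpow]
  rcases hI.eq_or_lt with h0 | h0
  · rw [← h0, Real.zero_rpow (by norm_num), Real.zero_rpow ht.ne']
  · exact Real.rpow_le_rpow_of_exponent_ge h0 hI1 ht2

/-- a smaller exponent -/
lemma Bt.lower {h : (V → Bool) → ℝ} {c t t' : ℝ} (H : Bt h c t) (ht : 0 < t') (ht' : t' ≤ t) :
    Bt h c t' := by
  refine ⟨H.1, ht, ht'.trans H.2.2.1, ?_⟩
  intro F I hI hI1 hF hF2
  refine (H.2.2.2 F I hI hI1 hF hF2).trans (mul_le_mul_of_nonneg_left ?_ H.1)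
  rcases hI.eq_or_lt with h0 | h0
  · rw [← h0, Real.zero_rpow ht.ne', Real.zero_rpow H.2.1.ne']
  · exact Real.rpow_le_rpow_of_exponent_ge h0 hI1 ht'

/-- queries -/
lemma Bt.query {h0 h1 : (V → Bool) → ℝ} {v : V} {a b t : ℝ}
    (e0 : ∀ x, h0 (Function.update x v (!x v)) = h0 x)
    (e1 : ∀ x, h1 (Function.update x v (!x v)) = h1 x) (H0 : Bt h0 a t) (H1 : Bt h1 b t) :
    Bt (fun x => if x v then h1 x else h0 x)
      (Real.sqrt (inf (fun x => if x v then h1 x else h0 x) v) + (a + b) / 2) t := by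
  refine ⟨add_nonneg (Real.sqrt_nonneg _)
    (div_nonneg (add_nonneg H0.1 H1.1) (by norm_num)), H0.2.1, H0.2.2.1, ?_⟩
  intro F I hI hI1 hF hF2
  have h3 := cov_query' (F := F) (h0 := h0) (h1 := h1) (v := v) e0 e1
  have h4 : Real.sqrt (infl F v) ≤ I ^ t := sqrt_le_rpow hI hI1 H0.2.1 H0.2.2.1 (hF2 v)
  have h5 : ∀ u, inf (avv v F) u ≤ I := fun u => (infl_avv_le v u F).trans (hF2 u)
  have h6 : ex (fun x => avv v F x ^ 2) ≤ 1 := (sq_avv_le v F).trans hF
  have h7 := H0.2.2.2 (avv v F) I hI hI1 h6 h5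
  have h8 := H1.2.2.2 (avv v F) I hI hI1 h6 h5
  have h9 := mul_le_mul_of_nonneg_left h4
    (Real.sqrt_nonneg (infl (fun x => if x v then h1 x else h0 x) v))
  rw [inf_eq]
  linarith

/-- products -/
lemma Bt.prod {q r : (V → Bool) → ℝ} {a b t : ℝ} (T : Finset V)
    (hq : ∀ x y : V → Bool, (∀ v, v ∉ T → x v = y v) → q x = q y)
    (hr : ∀ x y : V → Bool, (∀ v ∈ T, x v = y v) → r x = r y) (Hq : Bt q a t) (Hr : Bt r b t) :
    Bt (fun x => q x * r x) (Real.sqrt (ex (fun x => r x ^ 2)) * a + |ex q| * b) t := by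
  refine ⟨add_nonneg (mul_nonneg (Real.sqrt_nonneg _) Hq.1) (mul_nonneg (abs_nonneg _) Hr.1),
    Hq.2.1, Hq.2.2.1, ?_⟩
  intro F I hI hI1 hF hF2
  obtain ⟨G, hG1, hG2, hG⟩ := prod_step' T q r F hq hr
  have hR : 0 ≤ ex (fun x => r x ^ 2) := ex_nonneg' fun x => sq_nonneg _
  have h1 := Hq.hom (G := G) (R := ex (fun x => r x ^ 2)) hR hI hI1
    (hG1.trans (mul_le_of_le_one_right hR hF))
    (fun v => (hG2 v).trans (mul_le_mul_of_nonneg_left (hF2 v) hR))
  have h2 := Hr.2.2.2 F I hI hI1 hF hF2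
  rw [hG]
  refine (abs_add_le _ _).trans ?_
  rw [abs_mul, add_mul]
  refine add_le_add h1 ?_
  rw [mul_assoc]
  exact mul_le_mul_of_nonneg_left h2 (abs_nonneg _)

/-- functions of few variables -/
lemma Bt.few {h : (V → Bool) → ℝ} (T : Finset V)
    (hT : ∀ x y : V → Bool, (∀ v ∈ T, x v = y v) → h x = h y)
    (h2 : ex (fun x => h x ^ 2) ≤ 1) : Bt h (Real.sqrt T.card) (1 / 2) := by
  refine ⟨Real.sqrt_nonneg _, by norm_num, le_rfl, ?_⟩
  intro F I hI hI1 hF hF2
  have hco : ∀ W : Finset V, ¬ W ⊆ T → coef h W = 0 := by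
    intro W hW
    obtain ⟨v, hv, hvT⟩ := Finset.not_subset.mp hW
    have h3 := coef_comp_flip h v W
    have h4 : (fun x => h (flip v x)) = h := by
      funext x
      refine hT _ _ fun u hu => ?_
      rw [flip_apply_of_ne]
      rintro rfl
      exact hvT hu
    rw [h4, if_pos hv] at h3
    linarith
  have hcov : cov h F = ∑ W ∈ (univ : Finset (Finset V)).filter (fun W => (W ∩ T).Nonempty),
      coef h W * coef F W := by
    have h3 := cov_eq h F
    have h4 : cov h F = ∑ W ∈ (univ : Finset (Finset V)).filter (fun W => W.Nonempty),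
        coef h W * coef F W := h3
    rw [h4]
    symm
    refine Finset.sum_subset ?_ ?_
    · intro W hW
      rw [mem_filter] at hW ⊢
      exact ⟨mem_univ _, hW.2.mono Finset.inter_subset_left⟩
    · intro W hW hW'
      rw [mem_filter] at hW hW'
      by_cases hs : W ⊆ T
      · exfalso
        apply hW'
        refine ⟨mem_univ _, ?_⟩
        rw [Finset.inter_eq_left.mpr hs]
        exact hW.2
      · rw [hco W hs, zero_mul]
  have hcs := Finset.sum_mul_sq_le_sq_mul_sq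
    ((univ : Finset (Finset V)).filter (fun W => (W ∩ T).Nonempty)) (coef h) (coef F)
  have hh : ∑ W ∈ (univ : Finset (Finset V)).filter (fun W => (W ∩ T).Nonempty),
      coef h W ^ 2 ≤ 1 := by
    refine (Finset.sum_le_sum_of_subset_of_nonneg (Finset.subset_univ _)
      fun W _ _ => sq_nonneg _).trans ?_
    rw [parseval_sq]
    exact h2
  have hFI : ∑ W ∈ (univ : Finset (Finset V)).filter (fun W => (W ∩ T).Nonempty),
      coef F W ^ 2 ≤ T.card * I := by
    refine (Pool.Agent.Lib_helper4.Pluri.weight_le_inf F T).trans ?_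
    rw [← nsmul_eq_mul]
    refine Finset.sum_le_card_nsmul _ _ _ fun v _ => ?_
    refine le_trans (le_of_eq ?_) (hF2 v)
    rw [← influence_eq]
    rfl
  have hF0 : 0 ≤ ∑ W ∈ (univ : Finset (Finset V)).filter (fun W => (W ∩ T).Nonempty),
      coef F W ^ 2 := Finset.sum_nonneg fun W _ => sq_nonneg _
  have h5 : cov h F ^ 2 ≤ T.card * I := by
    rw [hcov]
    refine hcs.trans ?_
    calc _ ≤ 1 * ∑ W ∈ (univ : Finset (Finset V)).filter (fun W => (W ∩ T).Nonempty),
          coef F W ^ 2 := mul_le_mul_of_nonneg_right hh hF0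
      _ ≤ _ := by rw [one_mul]; exact hFI
  have h6 := Real.abs_le_sqrt h5
  rw [Real.sqrt_mul (Nat.cast_nonneg _)] at h6
  rwa [Real.sqrt_eq_rpow I] at h6

end Pool.Agent.Lib_helper49.Mix
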