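import Pool.Agent.Lib_helper30.AA.Tree

/-!
# Covariances with functions built by queries

`cov h F` is the covariance of two functions on the cube, `infl F v` the influence. If `h` is
obtained from `h0` and `h1` by a query of the variable `v`, then its covariance with `F` is at most
the mean of the covariances of `h0`, `h1` with the average of `F` over `v`, plus the first moment of
the derivative of `F`.
-/

set_option autoImplicit false
set_option linter.unusedSectionVars false

namespace Pool.Agent.Lib_helper49.Mix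

open Finset Pool.Agent.Lib_helper30.AA

variable {V : Type} [Fintype V] [DecidableEq V]

/-- covariance -/
noncomputable def cov (h F : (V → Bool) → ℝ) : ℝ := ex (fun x => h x * F x) - ex h * ex F

/-- influence -/
noncomputable def infl (F : (V → Bool) → ℝ) (v : V) : ℝ :=
  ex (fun x => ((F x - F (flip v x)) / 2) ^ 2)

/-- average over the variable `v` -/
noncomputable def avv (v : V) (F : (V → Bool) → ℝ) (x : V → Bool) : ℝ := (F x + F (flip v x)) / 2

lemma ex_avv (v : V) (F : (V → Bool) → ℝ) : ex (avv v F) = ex F := by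
  have : avv v F = fun x => (1 / 2) * F x + (1 / 2) * F (flip v x) := by
    funext x; simp only [avv]; ring
  rw [this, ex_add, ex_const_mul, ex_const_mul, ex_flip]
  ring

lemma infl_nonneg (F : (V → Bool) → ℝ) (v : V) : 0 ≤ infl F v := by
  unfold infl ex
  exact mul_nonneg (by positivity) (Finset.sum_nonneg fun x _ => sq_nonneg _)

lemma infl_avv_le (v u : V) (F : (V → Bool) → ℝ) : infl (avv v F) u ≤ infl F u := by
  have h1 : infl (avv v F) u ≤ ex (fun x => (1/2) * ((F x - F (flip u x)) / 2) ^ 2 +
      (1/2) * ((F (flip v x) - F (flip u (flip v x))) / 2) ^ 2) := by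
    unfold infl
    apply ex_mono
    intro x
    simp only [avv]
    rw [flip_comm v u x]
    nlinarith [sq_nonneg ((F x - F (flip u x)) / 2 - (F (flip v x) - F (flip u (flip v x))) / 2)]
  refine h1.trans (le_of_eq ?_)
  rw [ex_add, ex_const_mul, ex_const_mul, ex_flip (fun x => ((F x - F (flip u x)) / 2) ^ 2) v]
  unfold infl
  ring

lemma sq_avv_le (v : V) (F : (V → Bool) → ℝ) :
    ex (fun x => avv v F x ^ 2) ≤ ex (fun x => F x ^ 2) := by
  have h1 : ex (fun x => avv v F x ^ 2) ≤ ex (fun x => (1/2) * F x ^ 2 +
      (1/2) * F (flip v x) ^ 2) := by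
    apply ex_mono
    intro x
    simp only [avv]
    nlinarith [sq_nonneg (F x - F (flip v x))]
  refine h1.trans (le_of_eq ?_)
  rw [ex_add, ex_const_mul, ex_const_mul, ex_flip (fun x => F x ^ 2) v]
  ring

/-- the first moment of the derivative -/
lemma ex_abs_le {F : (V → Bool) → ℝ} {v : V} {t : ℝ} (ht : 0 ≤ t) (h : infl F v ≤ t ^ 2) :
    ex (fun x => |(F x - F (flip v x)) / 2|) ≤ t := by
  set A := ex (fun x => |(F x - F (flip v x)) / 2|) with hA
  by_contra hc
  push Not at hc
  have h1 : 0 ≤ ex (fun x => (|(F x - F (flip v x)) / 2| - A) ^ 2) := by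
    unfold ex
    exact mul_nonneg (by positivity) (Finset.sum_nonneg fun x _ => sq_nonneg _)
  have h2 : ex (fun x => (|(F x - F (flip v x)) / 2| - A) ^ 2) = infl F v - A ^ 2 := by
    have h3 : (fun x => (|(F x - F (flip v x)) / 2| - A) ^ 2) = fun x =>
        (((F x - F (flip v x)) / 2) ^ 2 + (-(2 * A)) * |(F x - F (flip v x)) / 2|) +
          A ^ 2 := by
      funext x
      rw [sub_sq, sq_abs]
      ring
    rw [h3, ex_add, ex_add, ex_const_mul, ex_const, ← hA]
    unfold infl
    ring
  have h4 : t ^ 2 < A ^ 2 := by nlinarith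
  linarith

lemma cov_lin (p q : ℝ) (h h' F : (V → Bool) → ℝ) :
    cov (fun x => p * h x + q * h' x) F = p * cov h F + q * cov h' F := by
  unfold cov
  have h1 : (fun x => (p * h x + q * h' x) * F x) = fun x => p * (h x * F x) + q * (h' x * F x) := by
    funext x; ring
  rw [h1, ex_add, ex_const_mul, ex_const_mul, ex_add, ex_const_mul, ex_const_mul]
  ring

/-- **One query.** -/
lemma cov_query {F h0 h1 : (V → Bool) → ℝ} {v : V} (e0 : ∀ x, h0 (flip v x) = h0 x)
    (e1 : ∀ x, h1 (flip v x) = h1 x) (b0 : ∀ x, |h0 x| ≤ 1) (b1 : ∀ x, |h1 x| ≤ 1) :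
    |cov (fun x => if x v then h1 x else h0 x) F| ≤
      ex (fun x => |(F x - F (flip v x)) / 2|) +
        (|cov h0 (avv v F)| + |cov h1 (avv v F)|) / 2 := by
  set h : (V → Bool) → ℝ := fun x => if x v then h1 x else h0 x with hh
  have hb : ∀ x, |h x| ≤ 1 := by
    intro x
    simp only [hh]
    split_ifs
    · exact b1 x
    · exact b0 x
  have hflip : ∀ x, avv v F (flip v x) = avv v F x := by
    intro x
    simp only [avv, Pool.Agent.Lib_helper30.AA.flip_flip]
    ring
  have hEh : ex h = (ex h0 + ex h1) / 2 := by rw [hh, ex_ite e0 e1]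
  have hEhF : ex (fun x => h x * avv v F x) =
      (ex (fun x => h0 x * avv v F x) + ex (fun x => h1 x * avv v F x)) / 2 := by
    rw [← ex_ite (F := fun x => h0 x * avv v F x) (G := fun x => h1 x * avv v F x) (i := v)
      (fun x => by rw [hflip, e0]) (fun x => by rw [hflip, e1])]
    congr 1
    funext x
    simp only [hh]
    split_ifs <;> rfl
  have hdiff : cov h F = ex (fun x => h x * ((F x - F (flip v x)) / 2)) +
      (cov h0 (avv v F) + cov h1 (avv v F)) / 2 := by
    have h3 : ex (fun x => h x * ((F x - F (flip v x)) / 2)) =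
        ex (fun x => h x * F x) - ex (fun x => h x * avv v F x) := by
      rw [← ex_sub]
      congr 1
      funext x
      simp only [avv]
      ring
    unfold cov
    rw [h3, hEhF, hEh, ex_avv]
    ring
  have h4 : |ex (fun x => h x * ((F x - F (flip v x)) / 2))| ≤
      ex (fun x => |(F x - F (flip v x)) / 2|) := by
    refine (abs_ex_le _).trans (ex_mono fun x => ?_)
    rw [abs_mul]
    exact mul_le_of_le_one_left (abs_nonneg _) (hb x)
  rw [hdiff]
  refine (abs_add_le _ _).trans (add_le_add h4 ?_)
  rw [abs_div, abs_of_pos (by norm_num : (0 : ℝ) < 2)]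
  exact div_le_div_of_nonneg_right (abs_add_le _ _) (by norm_num)

end Pool.Agent.Lib_helper49.Mix
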