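import Pool.Agent.Lib_helper49.Mix.Query
import Pool.Agent.Lib_helper23.GP.Prod
import Pool.Agent.Lib_helper80.PLH.End40

/-!
# The rules

`Bd h c`: the covariance of `h` with every `F` with `E F^2 <= 1` and all influences at most `I` is
at most `c I^(1/40)`. This is a norm of `h`; here are its bounds for linear combinations, for
queries and for products of functions of disjoint sets of variables.
-/

set_option autoImplicit false
set_option linter.unusedSectionVars false

namespace Pool.Agent.Lib_helper49.Mix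

open Finset Pool.Agent.Lib_helper30.AA
open Pool.Agent.Lib_helper23.GP (inf inf_nonneg inf_inj inf_inj_zero ex_inj cov_inj ex_mix mix_eq_left
  mix_eq_right)

variable {V : Type} [Fintype V] [DecidableEq V]

lemma ex_nonneg' {F : (V → Bool) → ℝ} (h : ∀ x, 0 ≤ F x) : 0 ≤ ex F := by
  unfold ex
  exact mul_nonneg (by positivity) (Finset.sum_nonneg fun x _ => h x)

/-- Cauchy-Schwarz -/
lemma ex_mul_sq_le (f g : (V → Bool) → ℝ) :
    (ex (fun x => f x * g x)) ^ 2 ≤ ex (fun x => f x ^ 2) * ex (fun x => g x ^ 2) := by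
  have h := Finset.sum_mul_sq_le_sq_mul_sq (univ : Finset (V → Bool)) f g
  have hp : (0 : ℝ) ≤ ((2 : ℝ) ^ (Fintype.card V))⁻¹ ^ 2 := by positivity
  have h2 := mul_le_mul_of_nonneg_left h hp
  unfold ex
  calc (((2 : ℝ) ^ (Fintype.card V))⁻¹ * ∑ x : V → Bool, f x * g x) ^ 2
      = ((2 : ℝ) ^ (Fintype.card V))⁻¹ ^ 2 * (∑ x : V → Bool, f x * g x) ^ 2 := by ring
    _ ≤ _ := h2
    _ = _ := by ring

lemma abs_ex_mul_le (f g : (V → Bool) → ℝ) :
    |ex (fun x => f x * g x)| ≤
      Real.sqrt (ex (fun x => f x ^ 2)) * Real.sqrt (ex (fun x => g x ^ 2)) := by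
  rw [← Real.sqrt_mul (ex_nonneg' fun x => sq_nonneg _)]
  exact Real.abs_le_sqrt (ex_mul_sq_le f g)

lemma inf_eq (F : (V → Bool) → ℝ) (v : V) : inf F v = infl F v := rfl

/-- **One query.** -/
lemma cov_query' {F h0 h1 : (V → Bool) → ℝ} {v : V} (e0 : ∀ x, h0 (flip v x) = h0 x)
    (e1 : ∀ x, h1 (flip v x) = h1 x) :
    |cov (fun x => if x v then h1 x else h0 x) F| ≤
      Real.sqrt (infl (fun x => if x v then h1 x else h0 x) v) * Real.sqrt (infl F v) +
        (|cov h0 (avv v F)| + |cov h1 (avv v F)|) / 2 := by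
  set h : (V → Bool) → ℝ := fun x => if x v then h1 x else h0 x with hh
  have hflip : ∀ x, avv v F (flip v x) = avv v F x := by
    intro x
    simp only [avv, Pool.Agent.Lib_helper30.AA.flip_flip]
    ring
  have hEh : ex h = (ex h0 + ex h1) / 2 := by rw [hh, ex_ite e0 e1]
  have hEhF : ex (fun x => h x * avv v F x) =
      (ex (fun x => h0 x * avv v F x) + ex (fun x => h1 x * avv v F x)) / 2 := by
    rw [← ex_ite (F := fun x => h0 x * avv v F x) (G := fun x => h1 x * avv v F x) (i := v)
      (fun x => by rw [hflip, e0]) (fun x => by rw [hflip, e1])]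
    congr 1
    funext x
    simp only [hh]
    split_ifs <;> rfl
  have hdiff : cov h F = ex (fun x => ((h x - h (flip v x)) / 2) * ((F x - F (flip v x)) / 2)) +
      (cov h0 (avv v F) + cov h1 (avv v F)) / 2 := by
    have h3 : ex (fun x => h x * ((F x - F (flip v x)) / 2)) =
        ex (fun x => h x * F x) - ex (fun x => h x * avv v F x) := by
      rw [← ex_sub]
      congr 1
      funext x
      simp only [avv]
      ring
    have h5 : ex (fun x => h (flip v x) * ((F x - F (flip v x)) / 2)) =
        - ex (fun x => h x * ((F x - F (flip v x)) / 2)) := by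
      rw [← ex_flip (fun x => h x * ((F x - F (flip v x)) / 2)) v]
      rw [← neg_one_mul, ← ex_const_mul]
      congr 1
      funext x
      simp only [Pool.Agent.Lib_helper30.AA.flip_flip]
      ring
    have h6 : ex (fun x => ((h x - h (flip v x)) / 2) * ((F x - F (flip v x)) / 2)) =
        ex (fun x => h x * ((F x - F (flip v x)) / 2)) := by
      have : (fun x => ((h x - h (flip v x)) / 2) * ((F x - F (flip v x)) / 2)) = fun x =>
          (1 / 2) * (h x * ((F x - F (flip v x)) / 2)) +
            (-(1 / 2)) * (h (flip v x) * ((F x - F (flip v x)) / 2)) := by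
        funext x; ring
      rw [this, ex_add, ex_const_mul, ex_const_mul, h5]
      ring
    rw [h6]
    unfold cov
    rw [h3, hEhF, hEh, ex_avv]
    ring
  have h4 : |ex (fun x => ((h x - h (flip v x)) / 2) * ((F x - F (flip v x)) / 2))| ≤
      Real.sqrt (infl h v) * Real.sqrt (infl F v) := abs_ex_mul_le _ _
  rw [hdiff]
  refine (abs_add_le _ _).trans (add_le_add h4 ?_)
  rw [abs_div, abs_of_pos (by norm_num : (0 : ℝ) < 2)]
  exact div_le_div_of_nonneg_right (abs_add_le _ _) (by norm_num)

/-- **The product step.** -/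
lemma prod_step' (T : Finset V) (q r F : (V → Bool) → ℝ)
    (hq : ∀ x y : V → Bool, (∀ v, v ∉ T → x v = y v) → q x = q y)
    (hr : ∀ x y : V → Bool, (∀ v ∈ T, x v = y v) → r x = r y) :
    ∃ G : (V → Bool) → ℝ, ex (fun x => G x ^ 2) ≤ ex (fun x => r x ^ 2) * ex (fun x => F x ^ 2) ∧
      (∀ u, inf G u ≤ ex (fun x => r x ^ 2) * inf F u) ∧
      cov (fun x => q x * r x) F = cov q G + ex q * cov r F := by
  refine ⟨fun x => ex (fun y => r y * F (mix T x y)), ?_, ?_, ?_⟩
  · rw [← ex_mix T (fun x => F x ^ 2), ← ex_const_mul]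
    refine ex_mono fun x => ?_
    exact ex_mul_sq_le _ _
  · intro u
    by_cases hu : u ∈ T
    · have h0 : inf (fun x => ex (fun y => r y * F (mix T x y))) u = 0 := by
        unfold Pool.Agent.Lib_helper23.GP.inf
        have h1 : ∀ x : V → Bool, ((ex (fun y => r y * F (mix T x y)) -
            ex (fun y => r y * F (mix T (Function.update x u (!x u)) y))) / 2) ^ 2 = 0 := by
          intro x
          have h2 : ∀ y : V → Bool, mix T (Function.update x u (!x u)) y = mix T x y := by
            intro y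
            funext v
            unfold mix
            by_cases hv : v ∈ T
            · simp [hv]
            · rw [if_neg hv, if_neg hv, Function.update_of_ne]
              rintro rfl
              exact hv hu
          simp_rw [h2]
          simp
        show ex (fun x : V → Bool => ((ex (fun y => r y * F (mix T x y)) -
            ex (fun y => r y * F (mix T (Function.update x u (!x u)) y))) / 2) ^ 2) = 0
        simp_rw [h1]
        exact ex_const 0
      rw [h0]
      exact mul_nonneg (ex_nonneg' fun x => sq_nonneg _) (inf_nonneg F u)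
    · unfold Pool.Agent.Lib_helper23.GP.inf
      rw [← ex_mix T (fun v => ((F v - F (Function.update v u (!v u))) / 2) ^ 2), ← ex_const_mul]
      refine ex_mono fun x => ?_
      have h2 : ∀ y : V → Bool, mix T (Function.update x u (!x u)) y =
          Function.update (mix T x y) u (!(mix T x y) u) := by
        intro y
        have hm : mix T x y u = x u := by simp [mix, hu]
        rw [hm]
        funext v
        by_cases hv : v = u
        · subst hv
          simp [mix, hu]
        · by_cases hv2 : v ∈ T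
          · simp [mix, hv, hv2]
          · simp [mix, hv, hv2]
      have h3 : (ex (fun y => r y * F (mix T x y)) -
          ex (fun y => r y * F (mix T (Function.update x u (!x u)) y))) / 2 =
          ex (fun y => r y * ((F (mix T x y) -
            F (Function.update (mix T x y) u (!(mix T x y) u))) / 2)) := by
        simp_rw [h2]
        rw [← ex_sub, div_eq_inv_mul, ← ex_const_mul]
        congr 1
        funext y
        ring
      show ((ex (fun y => r y * F (mix T x y)) -
          ex (fun y => r y * F (mix T (Function.update x u (!x u)) y))) / 2) ^ 2 ≤ _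
      rw [h3]
      exact ex_mul_sq_le _ _
  · unfold cov
    have e1 : ex (fun x => q x * r x * F x) =
        ex (fun x => q x * ex (fun y => r y * F (mix T x y))) := by
      rw [← ex_mix T (fun x => q x * r x * F x)]
      congr 1
      funext x
      rw [← ex_const_mul]
      congr 1
      funext y
      rw [mix_eq_left hq, mix_eq_right hr]
      ring
    have e2 : ex (fun x => r x * F x) = ex (fun x => ex (fun y => r y * F (mix T x y))) := by
      rw [← ex_mix T (fun x => r x * F x)]
      congr 1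
      funext x
      congr 1
      funext y
      rw [mix_eq_right hr]
    have e3 : ex (fun x => q x * r x) = ex q * ex r := by
      rw [← ex_mix T (fun x => q x * r x)]
      have h1 : (fun x => ex (fun y => q (mix T x y) * r (mix T x y))) =
          fun x => ex r * q x := by
        funext x
        have h2 : (fun y => q (mix T x y) * r (mix T x y)) = fun y => q x * r y := by
          funext y
          rw [mix_eq_left hq, mix_eq_right hr]
        rw [h2, ex_const_mul, mul_comm]
      rw [h1, ex_const_mul, mul_comm]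
    rw [e1, e2, e3]
    ring

/-- The covariance of `h` with every flat function is at most `c I^(1/40)`. -/
def Bd (h : (V → Bool) → ℝ) (c : ℝ) : Prop :=
  0 ≤ c ∧ ∀ (F : (V → Bool) → ℝ) (I : ℝ), 0 ≤ I → I ≤ 1 → ex (fun x => F x ^ 2) ≤ 1 →
    (∀ v, inf F v ≤ I) → |cov h F| ≤ c * I ^ (1 / 40 : ℝ)

lemma cov_smul (h F : (V → Bool) → ℝ) (t : ℝ) : cov h (fun x => t * F x) = t * cov h F := by
  unfold cov
  have : (fun x => h x * (t * F x)) = fun x => t * (h x * F x) := by funext x; ring
  rw [this, ex_const_mul, ex_const_mul]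
  ring

lemma inf_smul (F : (V → Bool) → ℝ) (t : ℝ) (v : V) :
    inf (fun x => t * F x) v = t ^ 2 * inf F v := by
  unfold Pool.Agent.Lib_helper23.GP.inf
  rw [← ex_const_mul]
  congr 1
  funext x
  ring

/-- the homogeneous form -/
lemma Bd.hom {h : (V → Bool) → ℝ} {c : ℝ} (H : Bd h c) {G : (V → Bool) → ℝ} {R I : ℝ}
    (hR : 0 ≤ R) (hI : 0 ≤ I) (hI1 : I ≤ 1) (h1 : ex (fun x => G x ^ 2) ≤ R)
    (h2 : ∀ v, inf G v ≤ R * I) : |cov h G| ≤ Real.sqrt R * c * I ^ (1 / 40 : ℝ) := by
  rcases hR.eq_or_lt with h0 | h0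
  · have hz : ∀ x, G x = 0 := by
      have h3 : ex (fun x => G x ^ 2) = 0 := le_antisymm (by rw [← h0] at h1; exact h1)
        (ex_nonneg' fun x => sq_nonneg _)
      unfold ex at h3
      have h4 : ∑ x : V → Bool, G x ^ 2 = 0 := by
        rcases mul_eq_zero.mp h3 with h5 | h5
        · have : (0:ℝ) < ((2 : ℝ) ^ (Fintype.card V))⁻¹ := by positivity
          linarith
        · exact h5
      rw [Finset.sum_eq_zero_iff_of_nonneg (fun x _ => sq_nonneg _)] at h4
      intro x
      exact pow_eq_zero_iff (two_ne_zero) |>.mp (h4 x (mem_univ x))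
    have : G = fun _ => 0 := funext hz
    have h5 : cov h G = 0 := by
      rw [this]
      unfold cov
      simp only [mul_zero]
      rw [ex_const]
      ring
    rw [h5, abs_zero]
    exact mul_nonneg (mul_nonneg (Real.sqrt_nonneg _) H.1) (Real.rpow_nonneg hI _)
  · have hs : 0 < Real.sqrt R := Real.sqrt_pos.mpr h0
    have hs2 : Real.sqrt R ^ 2 = R := Real.sq_sqrt hR
    have h3 := H.2 (fun x => (Real.sqrt R)⁻¹ * G x) I hI hI1 (by
      have : (fun x => ((Real.sqrt R)⁻¹ * G x) ^ 2) = fun x => R⁻¹ * G x ^ 2 := by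
        funext x
        rw [mul_pow, inv_pow, hs2]
      rw [this, ex_const_mul, inv_mul_le_iff₀ h0, mul_one]
      exact h1) (fun v => by
      rw [inf_smul, inv_pow, hs2, inv_mul_le_iff₀ h0]
      exact h2 v)
    rw [cov_smul, abs_mul, abs_of_pos (inv_pos.mpr hs), inv_mul_le_iff₀ hs] at h3
    linarith

/-- linear combinations -/
lemma Bd.sum {A : Type} [Fintype A] {p : A → ℝ} {h : A → (V → Bool) → ℝ} {c : A → ℝ}
    (H : ∀ a, Bd (h a) (c a)) : Bd (fun x => ∑ a, p a * h a x) (∑ a, |p a| * c a) := by
  refine ⟨Finset.sum_nonneg fun a _ => mul_nonneg (abs_nonneg _) (H a).1, ?_⟩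
  intro F I hI hI1 hF hF2
  have h1 := Pool.Agent.Lib_helper23.GP.cov_sum p h F
  have h2 : cov (fun v => ∑ a, p a * h a v) F = ∑ a, p a * cov (h a) F := h1
  rw [h2, Finset.sum_mul]
  refine (Finset.abs_sum_le_sum_abs _ _).trans (Finset.sum_le_sum fun a _ => ?_)
  rw [abs_mul, mul_assoc]
  exact mul_le_mul_of_nonneg_left ((H a).2 F I hI hI1 hF hF2) (abs_nonneg _)

/-- queries -/
lemma Bd.query {h0 h1 : (V → Bool) → ℝ} {v : V} {a b : ℝ}
    (e0 : ∀ x, h0 (Function.update x v (!x v)) = h0 x)
    (e1 : ∀ x, h1 (Function.update x v (!x v)) = h1 x) (H0 : Bd h0 a) (H1 : Bd h1 b) :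
    Bd (fun x => if x v then h1 x else h0 x)
      (Real.sqrt (inf (fun x => if x v then h1 x else h0 x) v) + (a + b) / 2) := by
  refine ⟨add_nonneg (Real.sqrt_nonneg _)
    (div_nonneg (add_nonneg H0.1 H1.1) (by norm_num)), ?_⟩
  intro F I hI hI1 hF hF2
  have h3 := cov_query' (F := F) (h0 := h0) (h1 := h1) (v := v) e0 e1
  have h4 : Real.sqrt (infl F v) ≤ I ^ (1 / 40 : ℝ) := by
    apply Pool.Agent.Lib_helper80.PLH.query_end40 hI hI1
    rw [Real.sq_sqrt (infl_nonneg F v)]
    exact hF2 v
  have h5 : ∀ u, inf (avv v F) u ≤ I := fun u => (infl_avv_le v u F).trans (hF2 u)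
  have h6 : ex (fun x => avv v F x ^ 2) ≤ 1 := (sq_avv_le v F).trans hF
  have h7 := H0.2 (avv v F) I hI hI1 h6 h5
  have h8 := H1.2 (avv v F) I hI hI1 h6 h5
  have h9 := mul_le_mul_of_nonneg_left h4
    (Real.sqrt_nonneg (infl (fun x => if x v then h1 x else h0 x) v))
  rw [inf_eq]
  linarith

/-- products -/
lemma Bd.prod {q r : (V → Bool) → ℝ} {a b : ℝ} (T : Finset V)
    (hq : ∀ x y : V → Bool, (∀ v, v ∉ T → x v = y v) → q x = q y)
    (hr : ∀ x y : V → Bool, (∀ v ∈ T, x v = y v) → r x = r y) (Hq : Bd q a) (Hr : Bd r b) :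
    Bd (fun x => q x * r x) (Real.sqrt (ex (fun x => r x ^ 2)) * a + |ex q| * b) := by
  refine ⟨add_nonneg (mul_nonneg (Real.sqrt_nonneg _) Hq.1) (mul_nonneg (abs_nonneg _) Hr.1), ?_⟩
  intro F I hI hI1 hF hF2
  obtain ⟨G, hG1, hG2, hG⟩ := prod_step' T q r F hq hr
  have hR : 0 ≤ ex (fun x => r x ^ 2) := ex_nonneg' fun x => sq_nonneg _
  have h1 := Hq.hom (G := G) (R := ex (fun x => r x ^ 2)) hR hI hI1
    (hG1.trans (mul_le_of_le_one_right hR hF))
    (fun v => (hG2 v).trans (mul_le_mul_of_nonneg_left (hF2 v) hR))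
  have h2 := Hr.2 F I hI hI1 hF hF2
  rw [hG]
  refine (abs_add_le _ _).trans ?_
  rw [abs_mul, add_mul]
  refine add_le_add h1 ?_
  rw [mul_assoc]
  exact mul_le_mul_of_nonneg_left h2 (abs_nonneg _)

end Pool.Agent.Lib_helper49.Mix
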